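import Pool.Agent.Helper37.KD.St.B2
import Pool.Agent.Helper37.KD.St.H3
import Pool.Agent.Helper37.KD.St.H7
import Pool.Agent.Helper37.KD.St.N5
import Pool.Agent.Helper37.KD.St.S3

/-! KD Part I: the occupation bound from the pieces -/

namespace KD
namespace I.DET

open Finset

theorem Rad_zero (s M ε : ℝ) : Rad s M ε 0 = M / ε := by
  simp [Rad, tim]

theorem one_le_Rad {s M ε : ℝ} (hs : 0 < s) (hM : 1 ≤ M) (hε : 0 < ε) (hε1 : ε ≤ 1) (k : ℕ) :
    1 ≤ Rad s M ε k := by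
  unfold Rad
  have h1 : 1 ≤ M / ε := by rw [le_div_iff₀ hε]; linarith
  have h2 : (1 : ℝ) ≤ 2 ^ k := one_le_pow₀ one_le_two
  exact one_le_mul_of_one_le_of_one_le (one_le_mul_of_one_le_of_one_le h1 h2) (one_le_tim hs k)

theorem det_occupation (d : ℕ) (hd : 1 ≤ d) (s lam Lam M0 c0 C0 : ℝ) (hs : 0 < s) (hs1 : s < 1)
    (hlam : 0 < lam) (hLam : lam ≤ Lam) (hM0 : 0 ≤ M0) (hc0 : 0 < c0) (hC0 : 0 < C0) :
    ∃ M Cs : ℝ, 1 ≤ M ∧ 0 < Cs ∧ ∀ K : ℕ, ∃ ε0 : ℝ, 0 < ε0 ∧ ∀ ε : ℝ, 0 < ε → ε ≤ ε0 →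
    ∃ N0 : ℕ, ∀ (N : ℕ) [NeZero N], N0 ≤ N → Odd N →
    ∃ q0 : GG d N → ℝ, (∀ z, 0 ≤ q0 z) ∧ (∑ z, q0 z = 1) ∧ (∑ z, q0 z * nrm 1 (M / ε) z ≤ Cs) ∧
    ∀ (Θ : Type) [Fintype Θ] (S : JSys d N (K + 3) c0 C0 Θ) (a : ℕ → ℕ → Θ → GG d N → ℝ)
      (_ : ∀ n, S.Coef lam Lam M0 (a n)) (T : ℕ) (_ : (T : ℝ) * ε ≤ tim s K)
      (Sn : ℕ → Finset (GG d N)) (π : ℝ) (_ : 0 < π) (_ : π < 1)
      (_ : Cs * (ε / tim s K) * ∑ n ∈ range T, ((Sn n).card : ℝ) ≤
          π * (2 ^ K) ^ d * (Rad s M ε K) ^ d),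
      (ε / tim s K) * ∑ n ∈ range T, ∑ z ∈ Sn n, cv q0 (S.chain s ε a n) z ≤
        Cs / Real.log (1 / π) := by
  obtain ⟨C1, c1, hC1, hc1, HK⟩ := ker_exists d
  obtain ⟨M, Ce, hM, hCe, HE⟩ := entropy_average d hd s lam Lam M0 c0 C0 C1 hs hs1 hlam hLam hM0 hc0 hC0 hC1
  obtain ⟨Cm, hCm, HM⟩ := level_moment s lam Lam c0 C0 C1 d hd hs hs1 hlam hLam hC0 hC1
  obtain ⟨C, hC, HO⟩ := occ_bound d Ce (1 + Cm)
  refine ⟨M, C + 2 * C1, hM, by positivity, ?_⟩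
  intro K
  obtain ⟨εe, hεe, HE⟩ := HE K
  obtain ⟨εm, hεm, HM⟩ := HM K
  obtain ⟨εp, hεp, HP⟩ := chain_isP s lam Lam c0 C0 C1 d hs hlam hLam hC0 K
  refine ⟨min (min εe εm) (min εp (min c1 (1 / 8))), by positivity, ?_⟩
  intro ε hε hε0
  have he : ε ≤ εe := hε0.trans ((min_le_left _ _).trans (min_le_left _ _))
  have hm : ε ≤ εm := hε0.trans ((min_le_left _ _).trans (min_le_right _ _))
  have hp : ε ≤ εp := hε0.trans ((min_le_right _ _).trans (min_le_left _ _))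
  have hc : ε ≤ c1 := hε0.trans ((min_le_right _ _).trans ((min_le_right _ _).trans (min_le_left _ _)))
  have h8 : ε ≤ 1 / 8 := hε0.trans ((min_le_right _ _).trans ((min_le_right _ _).trans (min_le_right _ _)))
  refine ⟨2 ^ (K + 8) + ⌈Rad s M ε K⌉₊ + 3, ?_⟩
  intro N _ hN hodd
  have hN3 : 3 ≤ N := le_trans (Nat.le_add_left 3 _) hN
  have hN1 : 2 ^ (K + 8) ≤ N := le_trans (le_trans (Nat.le_add_right _ _) (Nat.le_add_right _ 3)) hN
  have hN2 : ⌈Rad s M ε K⌉₊ ≤ N := le_trans (le_trans (Nat.le_add_left _ _) (Nat.le_add_right _ 3)) hN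
  have hRad : ∀ k, 1 ≤ Rad s M ε k := one_le_Rad hs hM hε (by linarith)
  have hq : ∀ k : ℕ, ∃ q : GG d N → ℝ, Ker (2 ^ k) (Rad s M ε k) C1 q := by
    intro k
    refine HK N (2 ^ k) (Rad s M ε k) hodd hN3 (one_le_pow₀ one_le_two) (hRad k) ?_
    rw [div_le_iff₀ (by linarith [hRad k])]
    unfold Rad
    have h1 : ε ≤ c1 * M := by nlinarith
    have h2 : (1 : ℝ) ≤ c1 * (M / ε) := by
      rw [← mul_div_assoc, le_div_iff₀ hε]; linarith
    have h3 := one_le_tim hs k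
    have h4 : (0 : ℝ) < 2 ^ k := by positivity
    calc (2 : ℝ) ^ k = 1 * 2 ^ k * 1 := by ring
      _ ≤ c1 * (M / ε) * 2 ^ k * tim s k := by
          gcongr
      _ = _ := by ring
  choose q hq using hq
  have hNR : Rad s M ε K ≤ N := by
    have h1 := Nat.le_ceil (Rad s M ε K)
    have h2 : ((⌈Rad s M ε K⌉₊ : ℕ) : ℝ) ≤ N := by exact_mod_cast hN2
    linarith
  refine ⟨q 0, fun z => ((hq 0).pos z).le, (hq 0).mass, ?_, ?_⟩
  · have h1 := (hq 0).mom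
    have h2 : Rad s M ε 0 = M / ε := Rad_zero s M ε
    rw [h2, pow_zero] at h1
    have hpos : ∀ z, 0 < q 0 z := (hq 0).pos
    calc ∑ z, q 0 z * nrm 1 (M / ε) z ≤ ∑ z, 2 * (q 0 z * Real.exp (nrm 1 (M / ε) z / 2)) := by
          refine Finset.sum_le_sum fun z _ => ?_
          have h3 := Real.add_one_le_exp (nrm 1 (M / ε) z / 2)
          have h4 : nrm 1 (M / ε) z ≤ 2 * Real.exp (nrm 1 (M / ε) z / 2) := by linarith
          have := mul_le_mul_of_nonneg_left h4 (hpos z).le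
          linarith
      _ = 2 * ∑ z, q 0 z * Real.exp (nrm 1 (M / ε) z / 2) := by rw [Finset.mul_sum]
      _ ≤ 2 * C1 := by linarith
      _ ≤ _ := by linarith
  · intro Θ _ S a ha T hT Sn π hπ0 hπ1 hcard
    let E : Env d s c0 C0 C1 :=
      { N := N, K := K, M := M, ε := ε, hM := hM, hε := hε, hε1 := h8, hN := hN1, hNR := hNR,
        hodd := hodd, q := q, ker := fun k _ => hq k, Θ := Θ, S := S }
    have hP : ∀ n, IsP (E.chain a n) := HP E rfl hp M0 a ha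
    have hEnt := HE E rfl rfl he a ha T hT
    have hNK : (2 : ℝ) ^ K ≤ N := by
      have h2 : 2 ^ K ≤ N := (Nat.pow_le_pow_right (by norm_num) (by omega)).trans hN1
      exact_mod_cast h2
    have htK := tim_pos s K
    have hω : 0 < ε / tim s K := by positivity
    have hωT : ε / tim s K * T ≤ 1 := by
      rw [div_mul_eq_mul_div, div_le_iff₀ htK]; linarith
    have hlog : 0 < Real.log (1 / π) := Real.log_pos (by rw [lt_div_iff₀ hπ0]; linarith)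
    have hmom : ∀ n < T, ∑ z, lev E.q (E.chain a n) 1 z * nrm (2 ^ K) (Rad s M ε K) z ≤ 1 + Cm := by
      intro n hn
      have hnT : (n : ℝ) * ε ≤ tim s K := by
        have : (n : ℝ) ≤ T := by exact_mod_cast hn.le
        nlinarith
      have h1 : ∑ z, lev E.q (E.chain a n) 1 z * E.nm K z ^ 2 ≤ Cm :=
        HM E rfl hm M0 a ha n hnT 1 (by omega)
      have hu := E.u_sum (hP n) (k := 1) (by omega)
      calc ∑ z, lev E.q (E.chain a n) 1 z * nrm (2 ^ K) (Rad s M ε K) z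
          ≤ ∑ z, (lev E.q (E.chain a n) 1 z + lev E.q (E.chain a n) 1 z * E.nm K z ^ 2) := by
            refine Finset.sum_le_sum (fun z _ => ?_)
            have h0 := E.u_nonneg (hP n) (k := 1) (by omega) z
            have h3 : nrm (2 ^ K) (Rad s M ε K) z ≤ 1 + E.nm K z ^ 2 := by
              change nrm (2 ^ K) (Rad s M ε K) z ≤ 1 + nrm (2 ^ K) (Rad s M ε K) z ^ 2
              nlinarith [sq_nonneg (nrm (2 ^ K) (Rad s M ε K) z - 1)]
            calc _ ≤ lev E.q (E.chain a n) 1 z * (1 + E.nm K z ^ 2) := mul_le_mul_of_nonneg_left h3 h0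
              _ = _ := by ring
        _ = 1 + ∑ z, lev E.q (E.chain a n) 1 z * E.nm K z ^ 2 := by rw [Finset.sum_add_distrib, hu]
        _ ≤ _ := by linarith
    have hfin := HO N (2 ^ K) (Rad s M ε K) (one_le_pow₀ one_le_two) (hRad K) hNK hNR T
      (ε / tim s K) hω hωT (fun n => lev E.q (E.chain a n) 1)
      (fun n _ => ⟨fun z => E.u_nonneg (hP n) (by omega) z, E.u_sum (hP n) (by omega)⟩) hmom
      hEnt Sn π hπ0 hπ1 (by
        have h1 : 0 ≤ (ε / tim s K) * ∑ n ∈ range T, ((Sn n).card : ℝ) :=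
          mul_nonneg hω.le (Finset.sum_nonneg fun n _ => Nat.cast_nonneg _)
        calc C * (ε / tim s K) * ∑ n ∈ range T, ((Sn n).card : ℝ)
            = C * ((ε / tim s K) * ∑ n ∈ range T, ((Sn n).card : ℝ)) := by ring
          _ ≤ (C + 2 * C1) * ((ε / tim s K) * ∑ n ∈ range T, ((Sn n).card : ℝ)) :=
              mul_le_mul_of_nonneg_right (by linarith) h1
          _ = (C + 2 * C1) * (ε / tim s K) * ∑ n ∈ range T, ((Sn n).card : ℝ) := by ring
          _ ≤ _ := hcard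
          _ = _ := by ring)
    calc (ε / tim s K) * ∑ n ∈ range T, ∑ z ∈ Sn n, cv (q 0) (S.chain s ε a n) z
        ≤ C / Real.log (1 / π) := hfin
      _ ≤ (C + 2 * C1) / Real.log (1 / π) := by gcongr; linarith

end I.DET
end KD
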